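import Pool.Agent.H5.FL.Stm4
import Pool.Agent.H78.FL.CLK

/-! Helper lemmas for the step IST of crew FL: the generator frozen at a point. -/

set_option autoImplicit false

open MeasureTheory ProbabilityTheory Filter Topology
open scoped NNReal ENNReal

universe u

namespace H2.FL

open H5.FL

/-- the indicator of the observed box is integrable in time -/
theorem ind_intervalIntegrable {N : ℕ} {Ω : Type u} [mΩ : MeasurableSpace Ω]
    (obs : Filtration ℝ≥0 mΩ) (J : ℝ≥0 → Ω → Fin N) (h : IsProgressive obs J) (ω : Ω) (j : Fin N)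
    (a b : ℝ) : IntervalIntegrable (fun r : ℝ => if J r.toNNReal ω = j then (1 : ℝ) else 0)
      volume a b := by
  have hJ : Measurable fun s : ℝ => J s.toNNReal ω :=
    (H78.FL.J_joint obs J h).comp (measurable_real_toNNReal.prodMk measurable_const)
  have hm : Measurable fun r : ℝ => if J r.toNNReal ω = j then (1 : ℝ) else 0 :=
    Measurable.ite (hJ (measurableSet_singleton j)) measurable_const measurable_const
  refine (intervalIntegrable_const (c := (1 : ℝ))).mono_fun hm.aestronglyMeasurable ?_
  filter_upwards with r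
  split_ifs <;> simp

/-- time integral of a function of the observed box -/
theorem integral_box {N : ℕ} {Ω : Type u} [mΩ : MeasurableSpace Ω]
    (obs : Filtration ℝ≥0 mΩ) (J : ℝ≥0 → Ω → Fin N) (h : IsProgressive obs J) (ω : Ω)
    (c : Fin N → ℝ) (s t : ℝ≥0) :
    ∫ r in (s : ℝ)..t, c (J r.toNNReal ω) = ∑ j, c j * (clock J t ω j - clock J s ω j) := by
  have h1 : ∀ r : ℝ, c (J r.toNNReal ω) =
      ∑ j, c j * (if J r.toNNReal ω = j then (1 : ℝ) else 0) := by
    intro r
    simp
  simp_rw [h1]
  rw [intervalIntegral.integral_finsetSum]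
  · refine Finset.sum_congr rfl fun j _ => ?_
    rw [intervalIntegral.integral_const_mul]
    congr 1
    unfold clock
    exact (intervalIntegral.integral_interval_sub_left (ind_intervalIntegrable obs J h ω j _ _)
      (ind_intervalIntegrable obs J h ω j _ _)).symm
  · intro j _
    exact (ind_intervalIntegrable obs J h ω j _ _).const_mul _

theorem gen_clock {N : ℕ} {Ω : Type u} [mΩ : MeasurableSpace Ω]
    (obs : Filtration ℝ≥0 mΩ) (J : ℝ≥0 → Ω → Fin N) (h : IsProgressive obs J) (ω : Ω)
    (μ : ℝ) (f : (Fin N → ℝ) × (Fin N → ℝ) → ℝ) (x τ : Fin N → ℝ) (i : Fin N) (s t : ℝ≥0) :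
    ∫ r in (s : ℝ)..t, gen μ f x τ (J r.toNNReal ω) (J r.toNNReal ω = i) =
      ∑ j, gen μ f x τ j (j = i) * (clock J t ω j - clock J s ω j) :=
  integral_box obs J h ω (fun j => gen μ f x τ j (j = i)) s t

/-- increments of the clock -/
theorem clock_sub_nonneg {N : ℕ} {Ω : Type u} [mΩ : MeasurableSpace Ω]
    (obs : Filtration ℝ≥0 mΩ) (J : ℝ≥0 → Ω → Fin N) (h : IsProgressive obs J) (ω : Ω)
    (j : Fin N) {s t : ℝ≥0} (hst : s ≤ t) :
    0 ≤ clock J t ω j - clock J s ω j ∧ clock J t ω j - clock J s ω j ≤ (t : ℝ) - s := by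
  have hst' : (s : ℝ) ≤ t := by exact_mod_cast hst
  have h1 : clock J t ω j - clock J s ω j =
      ∫ r in (s : ℝ)..t, if J r.toNNReal ω = j then (1 : ℝ) else 0 := by
    unfold clock
    exact intervalIntegral.integral_interval_sub_left (ind_intervalIntegrable obs J h ω j _ _)
      (ind_intervalIntegrable obs J h ω j _ _)
  rw [h1]
  constructor
  · refine intervalIntegral.integral_nonneg hst' fun r _ => ?_
    split_ifs <;> simp
  · calc ∫ r in (s : ℝ)..t, (if J r.toNNReal ω = j then (1 : ℝ) else 0)
        ≤ ∫ _ in (s : ℝ)..t, (1 : ℝ) := by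
          refine intervalIntegral.integral_mono_on hst'
            (ind_intervalIntegrable obs J h ω j _ _) intervalIntegrable_const fun r _ => ?_
          split_ifs <;> simp
      _ = (t : ℝ) - s := by simp

end H2.FL
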