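import Pool.Agent.H5.FL.Stm4

/-! Helper lemmas for the step IST of crew FL. -/

set_option autoImplicit false

open MeasureTheory ProbabilityTheory Filter Topology
open scoped NNReal ENNReal

universe u

namespace H2.FL

open H5.FL

/-- the generator frozen at a point varies little -/
theorem gen_cmp (hPAR : S_PAR) {N : ℕ} (μ : ℝ) {f : (Fin N → ℝ) × (Fin N → ℝ) → ℝ}
    (hf : IsTest f) (R ε : ℝ) (hε : 0 < ε) :
    ∃ C : ℝ, 0 ≤ C ∧ ∀ z z' : (Fin N → ℝ) × (Fin N → ℝ), ‖z‖ ≤ R →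
      ∀ (j : Fin N) (hit : Prop) [Decidable hit],
      |gen μ f z'.1 z'.2 j hit - gen μ f z.1 z.2 j hit| ≤ ε + C * ‖z' - z‖ ^ 4 := by
  classical
  obtain ⟨C0, hC0⟩ := hf.bdd
  have hP := fun j => hPAR N f hf.smooth j
  -- continuity of the three coefficients, for both values of `hit`
  set g : Fin N → Bool → ((Fin N → ℝ) × (Fin N → ℝ)) → ℝ := fun j b z =>
    (1 / 2) * fderiv ℝ (fderiv ℝ f) z (Pi.single j 1, 0) (Pi.single j 1, 0)
      + (if b then μ else 0) * fderiv ℝ f z (Pi.single j 1, 0)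
      + fderiv ℝ f z (0, Pi.single j 1) with hg
  have hgc : ∀ j b, Continuous (g j b) := by
    intro j b
    obtain ⟨-, h1, h2, h3⟩ := hP j
    exact ((continuous_const.mul h2).add (continuous_const.mul h1)).add h3
  have hgen : ∀ (z : (Fin N → ℝ) × (Fin N → ℝ)) (j : Fin N) (hit : Prop) [Decidable hit],
      gen μ f z.1 z.2 j hit = g j (decide hit) z := by
    intro z j hit _
    obtain ⟨h0, -, -, -⟩ := hP j
    obtain ⟨h1, h2, h3⟩ := h0 z.1 z.2
    simp only [gen, hg, h1, h2, h3, decide_eq_true_eq]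
  have hbd : ∀ (z : (Fin N → ℝ) × (Fin N → ℝ)) (j : Fin N) (b : Bool),
      |g j b z| ≤ (1 / 2) * C0 + |μ| * C0 + C0 := by
    intro z j b
    obtain ⟨h0, -, -, -⟩ := hP j
    obtain ⟨h1, h2, h3⟩ := h0 z.1 z.2
    obtain ⟨-, h4⟩ := hC0 z.1 z.2
    obtain ⟨h5, h6, h7⟩ := h4 j
    rw [h1] at h5
    rw [h2] at h6
    rw [h3] at h7
    have hb : |(if b then μ else 0)| ≤ |μ| := by
      cases b <;> simp
    have hC : 0 ≤ C0 := (abs_nonneg _).trans h5
    calc |g j b z| ≤ |(1 / 2) * fderiv ℝ (fderiv ℝ f) z (Pi.single j 1, 0) (Pi.single j 1, 0)|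
          + |(if b then μ else 0) * fderiv ℝ f z (Pi.single j 1, 0)|
          + |fderiv ℝ f z (0, Pi.single j 1)| := by
            simp only [hg]
            exact (abs_add_le _ _).trans (add_le_add_left (abs_add_le _ _) _)
      _ ≤ (1 / 2) * C0 + |μ| * C0 + C0 := by
            rw [abs_mul, abs_mul, abs_of_pos (by norm_num : (0 : ℝ) < 1 / 2)]
            have := mul_le_mul hb h5 (abs_nonneg _) (abs_nonneg _)
            have h6' := mul_le_mul_of_nonneg_left h6 (by norm_num : (0 : ℝ) ≤ 1 / 2)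
            linarith
  -- uniform continuity on the ball
  have hunif : ∃ δ : ℝ, 0 < δ ∧ δ ≤ 1 ∧ ∀ z z' : (Fin N → ℝ) × (Fin N → ℝ), ‖z‖ ≤ R →
      ‖z' - z‖ ≤ δ → ∀ j b, |g j b z' - g j b z| ≤ ε := by
    have h1 : ∀ jb : Fin N × Bool, ∃ δ : ℝ, 0 < δ ∧ ∀ z ∈ Metric.closedBall
        (0 : (Fin N → ℝ) × (Fin N → ℝ)) (R + 1), ∀ z' ∈ Metric.closedBall
        (0 : (Fin N → ℝ) × (Fin N → ℝ)) (R + 1), dist z z' < δ →
        dist (g jb.1 jb.2 z) (g jb.1 jb.2 z') < ε := by
      intro jb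
      have h2 := (isCompact_closedBall (0 : (Fin N → ℝ) × (Fin N → ℝ))
        (R + 1)).uniformContinuousOn_of_continuous (hgc jb.1 jb.2).continuousOn
      rw [Metric.uniformContinuousOn_iff] at h2
      exact h2 ε hε
    choose δ hδ hδ' using h1
    by_cases hne : Nonempty (Fin N × Bool)
    · obtain ⟨jb0, hjb0⟩ := Finite.exists_min δ
      refine ⟨min (δ jb0 / 2) 1, lt_min (half_pos (hδ _)) one_pos, min_le_right _ _, ?_⟩
      intro z z' hz hzz j b
      have h3 : ‖z' - z‖ < δ (j, b) := by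
        have := hδ jb0
        have := hjb0 (j, b)
        have := hzz.trans (min_le_left _ _)
        linarith
      have h4 : ‖z' - z‖ ≤ 1 := hzz.trans (min_le_right _ _)
      have h5 := hδ' (j, b) z (by rw [mem_closedBall_zero_iff]; linarith) z' (by
        rw [mem_closedBall_zero_iff]
        have : ‖z'‖ ≤ ‖z' - z‖ + ‖z‖ := by
          calc ‖z'‖ = ‖(z' - z) + z‖ := by rw [sub_add_cancel]
            _ ≤ _ := norm_add_le _ _
        linarith) (by rw [dist_comm, dist_eq_norm]; exact h3)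
      rw [dist_comm, Real.dist_eq] at h5
      exact h5.le
    · exact ⟨1, one_pos, le_rfl, fun z z' _ _ j b => absurd ⟨(j, b)⟩ hne⟩
  obtain ⟨δ, hδ, hδ1, hδ'⟩ := hunif
  set B := (1 / 2) * |C0| + |μ| * |C0| + |C0| with hB
  have hB0 : 0 ≤ B := by positivity
  refine ⟨2 * B / δ ^ 4, by positivity, fun z z' hz j hit _ => ?_⟩
  rw [hgen, hgen]
  by_cases hd : ‖z' - z‖ ≤ δ
  · have := hδ' z z' hz hd j (decide hit)
    have h2 : 0 ≤ 2 * B / δ ^ 4 * ‖z' - z‖ ^ 4 := by positivity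
    linarith
  · rw [not_le] at hd
    have h1 : ∀ y b, |g j b y| ≤ B := by
      intro y b
      refine (hbd y j b).trans ?_
      have := le_abs_self C0
      have h3 := mul_le_mul_of_nonneg_left this (abs_nonneg μ)
      rw [hB]
      linarith
    have h2 : |g j (decide hit) z' - g j (decide hit) z| ≤ 2 * B := by
      refine (abs_sub _ _).trans ?_
      have := h1 z' (decide hit)
      have := h1 z (decide hit)
      linarith
    have h3 : 1 ≤ ‖z' - z‖ ^ 4 / δ ^ 4 := by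
      rw [one_le_div (by positivity)]
      exact pow_le_pow_left₀ hδ.le hd.le 4
    have h4 : 2 * B ≤ 2 * B / δ ^ 4 * ‖z' - z‖ ^ 4 := by
      calc 2 * B = 2 * B * 1 := by ring
        _ ≤ 2 * B * (‖z' - z‖ ^ 4 / δ ^ 4) := mul_le_mul_of_nonneg_left h3 (by positivity)
        _ = _ := by ring
    linarith

end H2.FL
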